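import Pool.Agent.H240.IX.DefG

/-!
# IX-14: a countable dense family of collar functions
-/

set_option autoImplicit false

open Set Filter Topology MeasureTheory
open scoped ContDiff ComplexConjugate Real

noncomputable section

namespace Pool.Agent.H331.IX

open Pool.Agent.Y262.EX Pool.Agent.H240.IX

theorem L0p : 0 < L0 := by
  have h : 0 < Real.log (7 + 4 * Real.sqrt 3) :=
    Real.log_pos (by nlinarith [Real.sqrt_nonneg (3 : ℝ)])
  unfold L0
  positivity

/-- the compact interval -/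
abbrev KI : Type := ↥(Icc (-L0) (2 * L0))

/-- triples -/
abbrev TT : Type := {t : (ℝ → ℝ) × ℝ × ℝ // Rd t.1 t.2.1 t.2.2}

/-- restriction -/
def res (t : TT) : C(KI, ℝ) := ⟨fun x => t.1.1 x, t.2.sm.continuous.comp continuous_subtype_val⟩

theorem stSep : StSep := by
  have hne : Nonempty (range res) := by
    refine ⟨⟨res ⟨(fun _ => 0, 0, 1), ⟨one_pos, contDiff_const, fun _ _ => rfl, fun _ _ => rfl⟩⟩,
      mem_range_self _⟩⟩
  obtain ⟨u, hu⟩ := TopologicalSpace.exists_dense_seq (range res)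
  choose T hT using fun k => (u k).2
  refine ⟨fun k => (T k).1.1, fun k => (T k).1.2.1, fun k => (T k).1.2.2, fun k => (T k).2, ?_⟩
  intro P e' α' hP ε hε
  obtain ⟨k, hk⟩ : ∃ k, dist (u k) (⟨res ⟨(P, e', α'), hP⟩, mem_range_self _⟩ : range res) < ε := by
    obtain ⟨y, hy, k, hk⟩ := hu.inter_open_nonempty _ (Metric.isOpen_ball
      (x := (⟨res ⟨(P, e', α'), hP⟩, mem_range_self _⟩ : range res)) (ε := ε))
      ⟨_, Metric.mem_ball_self hε⟩
    exact ⟨k, by rw [hk]; exact hy⟩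
  have hL := L0p
  have hd : dist (res (T k)) (res ⟨(P, e', α'), hP⟩) < ε := by
    rw [hT k]
    exact hk
  have hin : ∀ x : ℝ, -L0 ≤ x → x ≤ 2 * L0 → |(T k).1.1 x - P x| < ε := by
    intro x h1 h2
    have h3 := (ContinuousMap.dist_apply_le_dist (f := res (T k)) (g := res ⟨(P, e', α'), hP⟩)
      (⟨x, h1, h2⟩ : KI)).trans_lt hd
    rw [Real.dist_eq] at h3
    exact h3
  have hf1 : ∀ x : ℝ, 9 / 10 * L0 ≤ |x - L0 / 2| → (T k).1.1 x = (T k).1.2.1 := (T k).2.far
  have hf2 : ∀ x : ℝ, 9 / 10 * L0 ≤ |x - L0 / 2| → P x = e' := hP.far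
  have he : |(T k).1.2.1 - e'| < ε := by
    have h1 := hin (3 / 2 * L0) (by linarith) (by linarith)
    have h2 : 9 / 10 * L0 ≤ |3 / 2 * L0 - L0 / 2| := by
      rw [abs_of_nonneg (by linarith)]
      linarith
    rw [hf1 _ h2, hf2 _ h2] at h1
    exact h1
  refine ⟨k, fun x => ?_, he⟩
  change |(T k).1.1 x - P x| < ε
  by_cases hx : 9 / 10 * L0 ≤ |x - L0 / 2|
  · rw [hf1 x hx, hf2 x hx]
    exact he
  · have h3 := abs_lt.1 (not_le.1 hx)
    exact hin x (by linarith [h3.1]) (by linarith [h3.2])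

end Pool.Agent.H331.IX
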